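import Pool.Agent.helper25.UC.H1
import Pool.Agent.helper25.UC.Main

/-!
# H3 : probability: the law of the process and `hseq`
-/

namespace UC
open Finset MeasureTheory
variable {V : Type} [Fintype V] [DecidableEq V] {s : ℕ}
variable {G : SimpleGraph V} [DecidableRel G.Adj]

theorem h3_run_congr (z0 : St V s) (w w' : ℕ → V) (n : ℕ) (h : ∀ i < n, w i = w' i) :
    run G z0 w n = run G z0 w' n := by
  induction n with
  | zero => rfl
  | succ n ih =>
    simp only [run]
    rw [ih (fun i hi => h i (Nat.lt_succ_of_lt hi)), h n (Nat.lt_succ_self n)]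

theorem h3_zero_of_tot {z : St V s} (h : tot z = 0) (v : V) : z.n v = 0 := by
  unfold tot at h
  have h1 := (Finset.sum_eq_zero_iff_of_nonneg (fun v _ => Nat.cast_nonneg (α := ℝ) (z.n v))).1 h v
    (Finset.mem_univ v)
  exact_mod_cast h1

theorem h3_hseq_zero {z : St V s} (h : tot z = 0) (j : ℕ) : hseq G j z = 0 := by
  induction j with
  | zero =>
    unfold hseq gg
    simp only [Function.iterate_zero, id]
    rw [if_neg]
    rintro ⟨u, v, hu, -, -⟩
    have := h3_zero_of_tot h u
    omega
  | succ j ih =>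
    unfold hseq at ih ⊢
    rw [Function.iterate_succ_apply']
    unfold Pop
    rw [if_pos h]
    exact ih

theorem h3_split {Ω : Type} [MeasurableSpace Ω] (P : Measure Ω) (X : Ω → V)
    (hX : ∀ v, MeasurableSet {ω | X ω = v}) (A : Set Ω) :
    P A = ∑ v, P (A ∩ {ω | X ω = v}) := by
  have h1 : P A = (P.restrict A) Set.univ := (Measure.restrict_apply_univ A).symm
  have h2 : (Set.univ : Set Ω) = ⋃ v, {ω | X ω = v} := by
    ext ω
    simp
  rw [h1, h2, measure_iUnion, tsum_fintype]
  · refine Finset.sum_congr rfl (fun v _ => ?_)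
    rw [Measure.restrict_apply (hX v), Set.inter_comm]
  · intro u v huv
    refine Set.disjoint_left.2 (fun ω h3 h4 => huv ?_)
    exact Eq.trans (Eq.symm h3) h4
  · exact hX

theorem h3_cyl {z0 : St V s} {Ω : Type} [MeasurableSpace Ω]
    {P : Measure Ω} {W : ℕ → Ω → V} (hW : IsUrn G z0 P W) (j : ℕ) :
    ∀ (n : ℕ) (w : ℕ → V),
    P ({ω | ∀ i < n, W i ω = w i} ∩ {ω | TwoCol (run G z0 (fun i => W i ω) (n + j))}) =
      P {ω | ∀ i < n, W i ω = w i} * ENNReal.ofReal (hseq G j (run G z0 w n)) := by
  induction j with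
  | zero =>
    intro n w
    by_cases hT : TwoCol (run G z0 w n)
    · have h1 : ({ω | ∀ i < n, W i ω = w i} ∩
          {ω | TwoCol (run G z0 (fun i => W i ω) (n + 0))}) = {ω | ∀ i < n, W i ω = w i} := by
        apply Set.inter_eq_left.2
        intro ω hω
        have h2 : run G z0 (fun i => W i ω) n = run G z0 w n := h3_run_congr z0 _ _ n hω
        show TwoCol (run G z0 (fun i => W i ω) n)
        rw [h2]
        exact hT
      have h2 : hseq G 0 (run G z0 w n) = 1 := by
        unfold hseq gg
        simp only [Function.iterate_zero, id]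
        rw [if_pos hT]
      rw [h1, h2, ENNReal.ofReal_one, mul_one]
    · have h1 : ({ω | ∀ i < n, W i ω = w i} ∩
          {ω | TwoCol (run G z0 (fun i => W i ω) (n + 0))}) = ∅ := by
        rw [Set.eq_empty_iff_forall_notMem]
        rintro ω ⟨hω, hω2⟩
        have h2 : run G z0 (fun i => W i ω) n = run G z0 w n := h3_run_congr z0 _ _ n hω
        apply hT
        rw [← h2]
        exact hω2
      have h2 : hseq G 0 (run G z0 w n) = 0 := by
        unfold hseq gg
        simp only [Function.iterate_zero, id]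
        rw [if_neg hT]
      rw [h1, h2, ENNReal.ofReal_zero, mul_zero, measure_empty]
  | succ j ih =>
    intro n w
    rw [h3_split P (W n) (hW.meas n)]
    have hupd : ∀ v, ({ω | ∀ i < n, W i ω = w i} ∩
        {ω | TwoCol (run G z0 (fun i => W i ω) (n + (j + 1)))}) ∩ {ω | W n ω = v} =
        {ω | ∀ i < n + 1, W i ω = Function.update w n v i} ∩
        {ω | TwoCol (run G z0 (fun i => W i ω) ((n + 1) + j))} := by
      intro v
      have he : n + (j + 1) = (n + 1) + j := by ring
      rw [he]
      ext ω
      simp only [Set.mem_inter_iff, Set.mem_ofPred_eq]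
      constructor
      · rintro ⟨⟨h1, h2⟩, h3⟩
        refine ⟨fun i hi => ?_, h2⟩
        rcases Nat.lt_succ_iff_lt_or_eq.1 hi with h4 | h4
        · rw [Function.update_of_ne h4.ne]
          exact h1 i h4
        · rw [h4, Function.update_self]
          exact h3
      · rintro ⟨h1, h2⟩
        refine ⟨⟨fun i hi => ?_, h2⟩, ?_⟩
        · have := h1 i (Nat.lt_succ_of_lt hi)
          rwa [Function.update_of_ne hi.ne] at this
        · have := h1 n (Nat.lt_succ_self n)
          rwa [Function.update_self] at this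
    have hrun : ∀ v, run G z0 (Function.update w n v) n = run G z0 w n := fun v =>
      h3_run_congr z0 _ _ n (fun i hi => Function.update_of_ne hi.ne _ _)
    have hcyl : ∀ v, {ω | ∀ i < n, W i ω = Function.update w n v i} =
        {ω | ∀ i < n, W i ω = w i} := by
      intro v
      ext ω
      simp only [Set.mem_ofPred_eq]
      refine forall₂_congr (fun i hi => ?_)
      rw [Function.update_of_ne hi.ne]
    have hterm : ∀ v, P (({ω | ∀ i < n, W i ω = w i} ∩
        {ω | TwoCol (run G z0 (fun i => W i ω) (n + (j + 1)))}) ∩ {ω | W n ω = v}) =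
        P {ω | ∀ i < n, W i ω = w i} *
          (ENNReal.ofReal (((run G z0 w n).n v : ℝ) / tot (run G z0 w n)) *
            ENNReal.ofReal (hseq G j (step G (run G z0 w n) v))) := by
      intro v
      rw [hupd v, ih (n + 1) (Function.update w n v), hW.law n (Function.update w n v), hcyl v,
        hrun v, Function.update_self, mul_assoc]
      congr 3
      simp only [run]
      rw [hrun v, Function.update_self]
    rw [Finset.sum_congr rfl (fun v _ => hterm v), ← Finset.mul_sum]
    congr 1
    by_cases ht : tot (run G z0 w n) = 0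
    · rw [h3_hseq_zero ht, ENNReal.ofReal_zero]
      refine Finset.sum_eq_zero (fun v _ => ?_)
      rw [ht, div_zero, ENNReal.ofReal_zero, zero_mul]
    · have htp : 0 < tot (run G z0 w n) := by
        refine lt_of_le_of_ne ?_ (Ne.symm ht)
        unfold tot
        exact Finset.sum_nonneg (fun v _ => Nat.cast_nonneg _)
      have h1 : hseq G (j + 1) (run G z0 w n) =
          ∑ v, ((run G z0 w n).n v : ℝ) / tot (run G z0 w n) *
            hseq G j (step G (run G z0 w n) v) := by
        have h2 : hseq G (j + 1) (run G z0 w n) = Pop G (hseq G j) (run G z0 w n) := by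
          unfold hseq
          rw [Function.iterate_succ_apply']
        rw [h2]
        unfold Pop
        rw [if_neg ht, Finset.sum_div]
        refine Finset.sum_congr rfl (fun v _ => ?_)
        ring
      rw [h1, ENNReal.ofReal_sum_of_nonneg]
      · refine Finset.sum_congr rfl (fun v _ => ?_)
        rw [ENNReal.ofReal_mul (by positivity)]
      · intro v _
        exact mul_nonneg (by positivity) (hseq_nonneg _ _)

theorem h3_nonempty {z : St V s} (h0 : 1 ≤ tot z) : Nonempty V := by
  by_contra hne
  rw [not_nonempty_iff] at hne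
  unfold tot at h0
  rw [Finset.univ_eq_empty, Finset.sum_empty] at h0
  linarith

theorem prob_event (z0 : St V s) (h0 : 1 ≤ tot z0) {Ω : Type} [MeasurableSpace Ω]
    (P : Measure Ω) [IsProbabilityMeasure P] (W : ℕ → Ω → V) (hW : IsUrn G z0 P W) (m : ℕ) :
    P {ω | TwoCol (run G z0 (fun n => W n ω) m)} = ENNReal.ofReal (hseq G m z0) := by
  obtain ⟨v0⟩ := h3_nonempty h0
  have h1 := h3_cyl hW m 0 (fun _ => v0)
  have h2 : {ω | ∀ i < 0, W i ω = v0} = (Set.univ : Set Ω) := by
    ext ω
    simp
  rw [h2, Set.univ_inter, measure_univ, one_mul, zero_add] at h1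
  exact h1

theorem ae_selected (z0 : St V s) (h0 : 1 ≤ tot z0) {Ω : Type} [MeasurableSpace Ω]
    (P : Measure Ω) [IsProbabilityMeasure P] (W : ℕ → Ω → V) (hW : IsUrn G z0 P W) :
    ∀ᵐ ω ∂P, ∀ n, 1 ≤ (run G z0 (fun n => W n ω) n).n (W n ω) := by
  obtain ⟨v0⟩ := h3_nonempty h0
  rw [ae_all_iff]
  intro n
  rw [ae_iff]
  -- the extension of a finite word
  let ex : (Fin (n + 1) → V) → ℕ → V := fun w i => if h : i < n + 1 then w ⟨i, h⟩ else v0
  have hnull : ∀ w : {w : Fin (n + 1) → V // (run G z0 (ex w) n).n (ex w n) = 0},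
      P {ω | ∀ i < n + 1, W i ω = ex w.1 i} = 0 := by
    intro w
    rw [hW.law n (ex w.1), w.2]
    simp
  have hsub : {ω | ¬ 1 ≤ (run G z0 (fun n => W n ω) n).n (W n ω)} ⊆
      ⋃ w : {w : Fin (n + 1) → V // (run G z0 (ex w) n).n (ex w n) = 0},
        {ω | ∀ i < n + 1, W i ω = ex w.1 i} := by
    intro ω hω
    have hex : ∀ i < n + 1, W i ω = ex (fun i : Fin (n + 1) => W i ω) i := by
      intro i hi
      simp only [ex, hi, dif_pos]
    have hr : run G z0 (ex (fun i : Fin (n + 1) => W i ω)) n =
        run G z0 (fun i => W i ω) n :=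
      h3_run_congr z0 _ _ n (fun i hi => (hex i (Nat.lt_succ_of_lt hi)).symm)
    refine Set.mem_iUnion.2 ⟨⟨fun i : Fin (n + 1) => W i ω, ?_⟩, hex⟩
    rw [hr, ← hex n (Nat.lt_succ_self n)]
    have h3 : ¬ 1 ≤ (run G z0 (fun n => W n ω) n).n (W n ω) := hω
    omega
  exact measure_mono_null hsub (measure_iUnion_null hnull)

end UC
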