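import Pool.Agent.helper25.UC.H1
import Pool.Agent.helper25.UC.Main

/-!
# H5 : deterministic part
-/

namespace UC
open Finset
variable {V : Type} [Fintype V] [DecidableEq V] {s : ℕ}
variable {G : SimpleGraph V} [DecidableRel G.Adj]

/-- colour `a` is present -/
def h5_pres (z : St V s) (a : Fin s) : Prop := ∃ v, 1 ≤ z.n v ∧ z.c v = a

open Classical in
/-- the set of present colours -/
noncomputable def h5_pc (z : St V s) : Finset (Fin s) := Finset.univ.filter (h5_pres z)

theorem h5_mem (z : St V s) (a : Fin s) : a ∈ h5_pc z ↔ h5_pres z a := by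
  unfold h5_pc
  simp

theorem h5_step (z : St V s) (w : V) (hw : 1 ≤ z.n w) : h5_pc (step G z w) ⊆ h5_pc z := by
  intro a ha
  rw [h5_mem] at ha ⊢
  obtain ⟨v, hv, hc⟩ := ha
  by_cases h : G.Adj w v ∧ z.n v = 0
  · refine ⟨w, hw, ?_⟩
    simp only [step, h, and_self, if_true] at hc
    exact hc
  · simp only [step, h, if_false] at hc
    refine ⟨v, ?_, hc⟩
    by_contra h1
    have h2 : z.n v = 0 := by omega
    have h3 : ¬ G.Adj w v := fun h4 => h ⟨h4, h2⟩
    simp only [step, h3, if_false] at hv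
    omega

theorem h5_anti (z0 : St V s) (w : ℕ → V) (hw : ∀ n, 1 ≤ (run G z0 w n).n (w n)) :
    Antitone (fun n => h5_pc (run G z0 w n)) :=
  antitone_nat_of_succ_le (fun n => h5_step (run G z0 w n) (w n) (hw n))

theorem h5_surv (z0 : St V s) (w : ℕ → V) (hw : ∀ n, 1 ≤ (run G z0 w n).n (w n)) (a : Fin s) :
    Survives G z0 w a ↔ ∀ n, a ∈ h5_pc (run G z0 w n) := by
  constructor
  · intro h n
    obtain ⟨m, hm, v, hv, hc⟩ := h n
    exact h5_anti z0 w hw hm ((h5_mem _ _).2 ⟨v, hv, hc⟩)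
  · intro h m
    obtain ⟨v, hv, hc⟩ := (h5_mem _ _).1 (h m)
    exact ⟨m, le_rfl, v, hv, hc⟩

/-- deterministic part: along a path on which only nonempty urns are selected, exactly one
colour survives iff at some time there are not two colours -/
theorem survive_iff (z0 : St V s) (h0 : 1 ≤ tot z0) (w : ℕ → V)
    (hw : ∀ n, 1 ≤ (run G z0 w n).n (w n)) :
    (∃! a, Survives G z0 w a) ↔ ∃ m, ¬ TwoCol (run G z0 w m) := by
  constructor
  · rintro ⟨a, ha, hu⟩
    by_contra hcon
    push Not at hcon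
    obtain ⟨m, hm⟩ : ∃ m, ∀ n, (h5_pc (run G z0 w m)).card ≤ (h5_pc (run G z0 w n)).card :=
      ⟨Function.argmin (fun n => (h5_pc (run G z0 w n)).card),
        fun n => Function.argmin_le (fun n => (h5_pc (run G z0 w n)).card) n⟩
    have hconst : ∀ n, ∀ b ∈ h5_pc (run G z0 w m), b ∈ h5_pc (run G z0 w n) := by
      intro n b hb
      rcases le_total m n with h | h
      · have hsub : h5_pc (run G z0 w n) ⊆ h5_pc (run G z0 w m) := h5_anti z0 w hw h
        rw [Finset.eq_of_subset_of_card_le hsub (hm n)]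
        exact hb
      · exact h5_anti z0 w hw h hb
    obtain ⟨u, v, hu1, hv1, hne⟩ := hcon m
    have hU := hu _ ((h5_surv z0 w hw _).2 (fun n => hconst n _
      ((h5_mem _ _).2 ⟨u, hu1, rfl⟩)))
    have hV := hu _ ((h5_surv z0 w hw _).2 (fun n => hconst n _
      ((h5_mem _ _).2 ⟨v, hv1, rfl⟩)))
    exact hne (hU.trans hV.symm)
  · rintro ⟨m, hm⟩
    have huniq : ∀ a ∈ h5_pc (run G z0 w m), a = (run G z0 w m).c (w m) := by
      intro a ha
      obtain ⟨v, hv, hc⟩ := (h5_mem _ _).1 ha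
      by_contra hne
      exact hm ⟨v, w m, hv, hw m, by rw [hc]; exact hne⟩
    refine ⟨(run G z0 w m).c (w m), ?_, ?_⟩
    · refine (h5_surv z0 w hw _).2 (fun n => ?_)
      rcases le_total m n with h | h
      · have h1 : (run G z0 w n).c (w n) ∈ h5_pc (run G z0 w n) :=
          (h5_mem _ _).2 ⟨w n, hw n, rfl⟩
        have h2 := huniq _ (h5_anti z0 w hw h h1)
        rw [← h2]
        exact h1
      · exact h5_anti z0 w hw h ((h5_mem _ _).2 ⟨w m, hw m, rfl⟩)
    · intro b hb
      exact huniq b ((h5_surv z0 w hw b).1 hb m)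

end UC
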