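import Pool.Agent.helper25.UC.N1
import Pool.Agent.helper25.UC.B3

/-!
# X1 : extraction of a convergent sequence of nearly critical bad points
-/

namespace UC
open Finset Filter
variable {V : Type} [Fintype V] [DecidableEq V] {s k : ℕ}
variable {G : SimpleGraph V} [DecidableRel G.Adj]

/-- limit data -/
structure Lim (F : Flag G s k) (τ : ℝ) (f : St V s → ℝ) (Es : ℝ) (c0 : V → Fin s) (e : V → ℝ)
    (E2 : ℕ → ℝ) (z : ℕ → St V s) (r : ℕ → V → ℝ) : Prop where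
  E2_le : ∀ n, |E2 n| ≤ cV V + 2
  E2_lim : Tendsto E2 atTop (nhds Es)
  mx : ∀ n, F.IsMx (E2 n) τ (z n) c0 (r n)
  facts : ∀ n, F.MxFacts (E2 n) τ (z n) c0 (r n)
  R_pos : ∀ n, 0 < F.o2 (r n)
  R_lim : Tendsto (fun n => Real.sqrt (F.o2 (r n))) atTop atTop
  d_lim : Tendsto (fun n => Real.sqrt (dsq (z n).c (nR (z n)) c0 (r n)) /
    Real.sqrt (F.o2 (r n))) atTop (nhds 0)
  u_lim : ∀ v, Tendsto (fun n => F.rho (r n) v / Real.sqrt (F.o2 (r n))) atTop (nhds (e v))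
  reg : ∀ δ > 0, ∀ᶠ n in atTop, F.Reg δ δ (z n)
  small : ∀ ε > 0, ∀ᶠ n in atTop, f (z n) < ε
  large : ∀ K > 0, ∀ᶠ n in atTop, K * tot (z n) ≤ F.o2 (nR (z n))

theorem x1_reg_mono (F : Flag G s k) {δ δ' : ℝ} (h0 : 0 ≤ δ) (h : δ ≤ δ') {z : St V s}
    (hz : F.Reg δ δ z) : F.Reg δ' δ' z := by
  obtain ⟨h1, h2, h3, h4, h5, h6⟩ := hz
  have hsq : δ ^ 2 ≤ δ' ^ 2 := pow_le_pow_left₀ h0 h 2
  refine ⟨h1, h2, h3, fun i j hij => (h4 i j hij).trans ?_, fun j => (h5 j).trans ?_,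
    fun j => (h6 j).trans ?_⟩
  · exact mul_le_mul_of_nonneg_right h (h3 i).le
  · exact mul_le_mul_of_nonneg_right hsq (sq_nonneg _)
  · exact mul_le_mul_of_nonneg_right hsq (sq_nonneg _)

theorem exists_lim {f : St V s → ℝ} (F : Flag G s k) (τ : ℝ)
    (hτ : 0 < τ) (hτ0 : τ ≤ tau0 V) (Es : ℝ) (h0 : 0 ≤ Es) (h1 : Es ≤ cV V + 1)
    (h : NearCrit F τ f Es) : ∃ c0 e E2 z r, Lim F τ f Es c0 e E2 z r := by
  obtain ⟨δ0, hδ0, hmx⟩ := F.mx_facts τ hτ hτ0
  have hcV : 0 ≤ cV V := by unfold cV; positivity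
  have hpos : ∀ n : ℕ, (0 : ℝ) < 1 / ((n : ℝ) + 1) := fun n => by positivity
  have hle1 : ∀ n : ℕ, (1 : ℝ) / ((n : ℝ) + 1) ≤ 1 := fun n => by
    rw [div_le_one (by positivity)]; linarith [Nat.cast_nonneg (α := ℝ) n]
  -- the choice
  have hch := fun n : ℕ => h (min δ0 (1 / ((n : ℝ) + 1))) (lt_min hδ0 (hpos n))
    (1 / ((n : ℝ) + 1)) (hpos n) ((n : ℝ) + 1) (by positivity)
    ((1 / ((n : ℝ) + 1) / 2) ^ 2) (by have := hpos n; positivity)
  choose E2 hE1 hE2 hE3 z hreg hf hK c r hIs hd using hch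
  have hδn : ∀ n : ℕ, 0 ≤ min δ0 (1 / ((n : ℝ) + 1)) := fun n => (lt_min hδ0 (hpos n)).le
  have hη1 : ∀ n : ℕ, (1 / ((n : ℝ) + 1) / 2) ^ 2 ≤ 1 := fun n => by
    have a := hpos n
    have b := hle1 n
    nlinarith
  have hEabs : ∀ n, |E2 n| ≤ cV V + 2 := fun n => by
    rw [abs_le]; constructor
    · linarith [hE3 n]
    · linarith [hE2 n]
  have hfacts : ∀ n, F.MxFacts (E2 n) τ (z n) (c n) (r n) := fun n =>
    hmx (E2 n) (hEabs n) _ _ (hδn n) (min_le_left _ _) (hδn n) (min_le_left _ _) (z n) (hreg n)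
      (c n) (r n) (hIs n)
  have ho2n : ∀ n, 0 ≤ F.o2 (nR (z n)) := fun n => by
    have h1 : 1 ≤ tot (z n) := (hreg n).1
    have h2 := hK n
    have h3 : (0 : ℝ) ≤ (n : ℝ) := Nat.cast_nonneg n
    nlinarith
  -- sizes
  have hsz : ∀ n : ℕ, (n : ℝ) + 1 ≤ F.o2 (nR (z n)) := fun n => by
    have h1 : 1 ≤ tot (z n) := (hreg n).1
    have h2 := hK n
    have h3 : (0 : ℝ) ≤ (n : ℝ) := Nat.cast_nonneg n
    nlinarith
  have hdn : ∀ n, Real.sqrt (dsq (z n).c (nR (z n)) (c n) (r n)) ≤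
      (1 / ((n : ℝ) + 1) / 2) * Real.sqrt (F.o2 (nR (z n))) := fun n => by
    have hp : 0 ≤ 1 / ((n : ℝ) + 1) / 2 := by have := hpos n; positivity
    rw [Real.sqrt_le_left (by positivity)]
    · rw [mul_pow, Real.sq_sqrt (ho2n n)]
      exact hd n
  have hRn : ∀ n, Real.sqrt (F.o2 (nR (z n))) / 2 ≤ Real.sqrt (F.o2 (r n)) := fun n => by
    have h1 := (hfacts n).rho_ge
    have h2 := hdn n
    have h3 := hle1 n
    have h4 : 0 ≤ Real.sqrt (F.o2 (nR (z n))) := Real.sqrt_nonneg _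
    nlinarith
  have hsqpos : ∀ n, 0 < Real.sqrt (F.o2 (nR (z n))) := fun n => by
    apply Real.sqrt_pos.2
    have := hsz n
    have h3 : (0 : ℝ) ≤ (n : ℝ) := Nat.cast_nonneg n
    linarith
  have hRpos : ∀ n, 0 < Real.sqrt (F.o2 (r n)) := fun n => by
    have := hRn n
    have := hsqpos n
    linarith
  have hRlim : Tendsto (fun n => Real.sqrt (F.o2 (r n))) atTop atTop := by
    have h1 : Tendsto (fun n : ℕ => Real.sqrt ((n : ℝ) + 1) / 2) atTop atTop := by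
      apply Filter.Tendsto.atTop_div_const (by norm_num)
      exact Real.tendsto_sqrt_atTop.comp (tendsto_atTop_add_const_right _ _
        tendsto_natCast_atTop_atTop)
    refine tendsto_atTop_mono (fun n => ?_) h1
    have h2 := Real.sqrt_le_sqrt (hsz n)
    have h3 := hRn n
    linarith
  have hdlim : Tendsto (fun n => Real.sqrt (dsq (z n).c (nR (z n)) (c n) (r n)) /
      Real.sqrt (F.o2 (r n))) atTop (nhds 0) := by
    refine squeeze_zero (fun n => by positivity) (fun n => ?_)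
      (tendsto_one_div_add_atTop_nhds_zero_nat (𝕜 := ℝ))
    rw [div_le_iff₀ (hRpos n)]
    have h1 := hdn n
    have h2 := hRn n
    have h3 := hpos n
    nlinarith
  -- constant colouring
  obtain ⟨c0, hc0⟩ := Finite.exists_infinite_fiber c
  have hfreq : ∃ᶠ n in atTop, c n = c0 := by
    rw [Nat.frequently_atTop_iff_infinite]
    exact Set.infinite_coe_iff.1 hc0
  obtain ⟨φ, hφ, hφc⟩ := extraction_of_frequently_atTop hfreq
  -- compactness
  have hcomp : IsCompact (Set.pi Set.univ (fun _ : V => Set.Icc (-1 : ℝ) 1)) :=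
    isCompact_univ_pi (fun _ => isCompact_Icc)
  have hmem : ∀ n, (fun v => F.rho (r (φ n)) v / Real.sqrt (F.o2 (r (φ n)))) ∈
      Set.pi Set.univ (fun _ : V => Set.Icc (-1 : ℝ) 1) := fun n => by
    intro v _
    have h1 : |F.rho (r (φ n)) v| ≤ Real.sqrt (F.o2 (r (φ n))) := Real.abs_le_sqrt
      (F.rho_sq_le (r (φ n)) v)
    have h2 := hRpos (φ n)
    have h3 : |F.rho (r (φ n)) v / Real.sqrt (F.o2 (r (φ n)))| ≤ 1 := by
      rw [abs_div, abs_of_pos h2, div_le_one h2]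
      exact h1
    exact abs_le.1 h3
  obtain ⟨e, -, ψ, hψ, hlim⟩ := hcomp.tendsto_subseq hmem
  have hsub : Tendsto (fun n => φ (ψ n)) atTop atTop := (hφ.comp hψ).tendsto_atTop
  refine ⟨c0, e, fun n => E2 (φ (ψ n)), fun n => z (φ (ψ n)), fun n => r (φ (ψ n)), ?_⟩
  have hinv : Tendsto (fun n : ℕ => (1 : ℝ) / ((n : ℝ) + 1)) atTop (nhds 0) :=
    tendsto_one_div_add_atTop_nhds_zero_nat (𝕜 := ℝ)
  refine ⟨fun n => hEabs _, ?_, fun n => ?_, fun n => ?_, fun n => ?_, ?_, ?_, fun v => ?_,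
    fun δ hδ => ?_, fun ε hε => ?_, fun K hKp => ?_⟩
  · have hE : Tendsto E2 atTop (nhds Es) := by
      have hη : Tendsto (fun n : ℕ => Es - (1 / ((n : ℝ) + 1) / 2) ^ 2) atTop (nhds Es) := by
        have h1 := ((hinv.div_const 2).pow 2).const_sub Es
        simpa using h1
      exact tendsto_of_tendsto_of_tendsto_of_le_of_le hη tendsto_const_nhds hE1 hE2
    exact hE.comp hsub
  · have := hIs (φ (ψ n))
    rwa [hφc (ψ n)] at this
  · have := hfacts (φ (ψ n))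
    rwa [hφc (ψ n)] at this
  · exact Real.sqrt_pos.1 (hRpos _)
  · exact hRlim.comp hsub
  · have h2 := hdlim.comp hsub
    refine h2.congr (fun n => ?_)
    simp only [Function.comp, hφc (ψ n)]
  · have h2 := (tendsto_pi_nhds.1 hlim) v
    exact h2
  · have h2 : ∀ᶠ n : ℕ in atTop, (1 : ℝ) / ((n : ℝ) + 1) < δ :=
      hinv.eventually (gt_mem_nhds hδ)
    refine (hsub.eventually h2).mono (fun n hn => ?_)
    exact x1_reg_mono F (hδn _) ((min_le_right _ _).trans hn.le) (hreg (φ (ψ n)))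
  · have h2 : ∀ᶠ n : ℕ in atTop, (1 : ℝ) / ((n : ℝ) + 1) < ε :=
      hinv.eventually (gt_mem_nhds hε)
    exact (hsub.eventually h2).mono (fun n hn => (hf _).trans hn)
  · have h2 : ∀ᶠ n : ℕ in atTop, K ≤ (n : ℝ) + 1 := by
      filter_upwards [eventually_ge_atTop (Nat.ceil K)] with n hn
      have := Nat.ceil_le.1 hn
      linarith
    refine (hsub.eventually h2).mono (fun n hn => ?_)
    have ht : 1 ≤ tot (z (φ (ψ n))) := (hreg _).1
    exact (mul_le_mul_of_nonneg_right hn (by linarith)).trans (hK _)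

end UC
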