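import Pool.Agent.helper25.UC.X1
import Pool.Agent.helper25.UC.A3

/-!
# X2 : properties of the limit direction
-/

namespace UC
open Finset Filter
variable {V : Type} [Fintype V] [DecidableEq V] {s k : ℕ}
variable {G : SimpleGraph V} [DecidableRel G.Adj]
variable {F : Flag G s k} {τ : ℝ} {f : St V s → ℝ} {Es : ℝ} {c0 : V → Fin s} {e : V → ℝ}
  {E2 : ℕ → ℝ} {z : ℕ → St V s} {r : ℕ → V → ℝ}

theorem x2_R_pos (h : Lim F τ f Es c0 e E2 z r) (n : ℕ) : 0 < Real.sqrt (F.o2 (r n)) :=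
  Real.sqrt_pos.2 (h.R_pos n)

theorem lim_norm (h : Lim F τ f Es c0 e E2 z r) : ∑ v, e v * e v = 1 := by
  have h1 : Tendsto (fun n => ∑ v, (F.rho (r n) v / Real.sqrt (F.o2 (r n))) *
      (F.rho (r n) v / Real.sqrt (F.o2 (r n)))) atTop (nhds (∑ v, e v * e v)) :=
    tendsto_finsetSum _ (fun v _ => (h.u_lim v).mul (h.u_lim v))
  have h2 : ∀ n, ∑ v, (F.rho (r n) v / Real.sqrt (F.o2 (r n))) *
      (F.rho (r n) v / Real.sqrt (F.o2 (r n))) = 1 := fun n => by
    have hR := x2_R_pos h n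
    have hR2 : Real.sqrt (F.o2 (r n)) * Real.sqrt (F.o2 (r n)) = F.o2 (r n) :=
      Real.mul_self_sqrt (h.R_pos n).le
    have h3 : ∑ v, (F.rho (r n) v / Real.sqrt (F.o2 (r n))) *
      (F.rho (r n) v / Real.sqrt (F.o2 (r n))) = (∑ v, F.rho (r n) v ^ 2) / F.o2 (r n) := by
      rw [Finset.sum_div]
      refine Finset.sum_congr rfl (fun v _ => ?_)
      rw [div_mul_div_comm, hR2, pow_two]
    rw [h3, ← F.o2_eq, div_self (h.R_pos n).ne']
  have h4 : Tendsto (fun _ : ℕ => (1 : ℝ)) atTop (nhds (∑ v, e v * e v)) :=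
    h1.congr h2
  exact tendsto_nhds_unique h4 tendsto_const_nhds

theorem lim_orth (h : Lim F τ f Es c0 e E2 z r) (j : Fin k) : ∑ v, F.e j v * e v = 0 := by
  have h1 : Tendsto (fun n => ∑ v, F.e j v * (F.rho (r n) v / Real.sqrt (F.o2 (r n))))
      atTop (nhds (∑ v, F.e j v * e v)) :=
    tendsto_finsetSum _ (fun v _ => (h.u_lim v).const_mul _)
  have h2 : ∀ n, ∑ v, F.e j v * (F.rho (r n) v / Real.sqrt (F.o2 (r n))) = 0 := fun n => by
    have h3 : ∑ v, F.e j v * (F.rho (r n) v / Real.sqrt (F.o2 (r n))) =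
        F.a j (F.rho (r n)) / Real.sqrt (F.o2 (r n)) := by
      unfold Flag.a
      rw [Finset.sum_div]
      refine Finset.sum_congr rfl (fun v _ => ?_)
      ring
    rw [h3, F.a_rho, zero_div]
  have h4 : Tendsto (fun _ : ℕ => (0 : ℝ)) atTop (nhds (∑ v, F.e j v * e v)) := h1.congr h2
  exact tendsto_nhds_unique h4 tendsto_const_nhds

theorem lim_nonneg (h : Lim F τ f Es c0 e E2 z r) (v : V) (hv : v ∉ F.I) : 0 ≤ e v := by
  refine ge_of_tendsto' (h.u_lim v) (fun n => ?_)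
  rw [F.rho_off (r n) v hv]
  exact div_nonneg ((h.mx n).1.2 v hv) (Real.sqrt_nonneg _)

theorem lim_color (h : Lim F τ f Es c0 e E2 z r) (v : V) (hv : v ∈ F.I) : c0 v = F.σ v :=
  (h.mx 0).1.1 v hv

theorem x2_ev_pos (h : Lim F τ f Es c0 e E2 z r) (v : V) (hv : v ∉ F.I) (he : 0 < e v) :
    ∀ᶠ n in atTop, 0 < r n v := by
  have h1 := (h.u_lim v).eventually (lt_mem_nhds he)
  refine h1.mono (fun n hn => ?_)
  rw [F.rho_off (r n) v hv] at hn
  exact (div_pos_iff_of_pos_right (x2_R_pos h n)).1 hn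

theorem x2_eps_sq (a b : Fin s) : eps a b * eps a b = 1 := by
  unfold eps
  split <;> norm_num

theorem x2_abs_le (c c' : V → Fin s) (x y : V → ℝ) (v : V) :
    |y v - eps (c v) (c' v) * x v| ≤ Real.sqrt (dsq c x c' y) := by
  apply Real.abs_le_sqrt
  have h1 : (y v - eps (c v) (c' v) * x v) ^ 2 = (x v - eps (c v) (c' v) * y v) ^ 2 := by
    have := x2_eps_sq (c v) (c' v)
    have h2 : (y v - eps (c v) (c' v) * x v) ^ 2 - (x v - eps (c v) (c' v) * y v) ^ 2 =
        (1 - eps (c v) (c' v) * eps (c v) (c' v)) * (y v ^ 2 - x v ^ 2) := by ring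
    rw [this] at h2
    linarith
  rw [h1]
  unfold dsq
  exact Finset.single_le_sum (f := fun v => (x v - eps (c v) (c' v) * y v) ^ 2)
    (fun w _ => sq_nonneg _) (Finset.mem_univ v)

theorem x2_rho_add (F : Flag G s k) (x : V → ℝ) (v : V) :
    x v = F.rho x v + ∑ j, F.a j x * F.e j v := by
  unfold Flag.rho
  ring

theorem x2_stat (h : Lim F τ f Es c0 e E2 z r) (n : ℕ) (v : V) (hv : v ∈ F.I ∨
    (v ∉ F.I ∧ 0 < r n v)) :
    Lf G c0 (c0 v) v (F.rho (r n)) - E2 n * F.rho (r n) v =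
      (r n v - eps ((z n).c v) (c0 v) * ((z n).n v : ℝ)) / τ := by
  have hadm := (h.mx n).1.1
  have hst := (h.facts n).stat v (hv.imp id And.right)
  rw [← hst]
  rcases hv with hv | ⟨hv, hp⟩
  · rw [F.field_in c0 (r n) hadm v hv]
    have hr := x2_rho_add F (r n) v
    have h1 : ∑ j, (F.E j - E2 n) * F.a j (r n) * F.e j v =
        ∑ j, F.E j * F.a j (r n) * F.e j v - E2 n * ∑ j, F.a j (r n) * F.e j v := by
      rw [Finset.mul_sum, ← Finset.sum_sub_distrib]
      refine Finset.sum_congr rfl (fun j _ => ?_)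
      ring
    rw [h1]
    generalize ∑ j, F.a j (r n) * F.e j v = A at hr ⊢
    rw [hr]
    ring
  · rw [F.field c0 (r n) hadm v (c0 v)]
    have h0 : ∀ j, F.e j v = 0 := fun j => F.supp j v hv
    have hn := (h.facts n).neutral v hv hp
    have h1 : ∑ j, (F.E j - E2 n) * F.a j (r n) * F.e j v = 0 :=
      Finset.sum_eq_zero (fun j _ => by rw [h0 j, mul_zero])
    have h2 : ∑ j, F.a j (r n) * Lf G F.σ (c0 v) v (F.e j) = 0 :=
      Finset.sum_eq_zero (fun j _ => by rw [hn j, mul_zero])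
    rw [h1, h2, F.rho_off (r n) v hv]
    ring

theorem lim_eig (hτ : 0 < τ) (h : Lim F τ f Es c0 e E2 z r) (v : V)
    (hv : v ∈ F.I ∨ 0 < e v) : Lf G c0 (c0 v) v e = Es * e v := by
  have hev : ∀ᶠ n in atTop, v ∈ F.I ∨ (v ∉ F.I ∧ 0 < r n v) := by
    by_cases hI : v ∈ F.I
    · exact Eventually.of_forall (fun _ => Or.inl hI)
    · have he : 0 < e v := hv.resolve_left hI
      exact (x2_ev_pos h v hI he).mono (fun n hn => Or.inr ⟨hI, hn⟩)
  have h1 : Tendsto (fun n => Lf G c0 (c0 v) v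
      (fun u => F.rho (r n) u / Real.sqrt (F.o2 (r n)))) atTop (nhds (Lf G c0 (c0 v) v e)) := by
    unfold Lf
    refine tendsto_finsetSum _ (fun u _ => ?_)
    split
    · exact (h.u_lim u).const_mul _
    · exact tendsto_const_nhds
  have h2 : Tendsto (fun n => E2 n * (F.rho (r n) v / Real.sqrt (F.o2 (r n)))) atTop
      (nhds (Es * e v)) := h.E2_lim.mul (h.u_lim v)
  have h3 := h1.sub h2
  have h4 : Tendsto (fun n => Lf G c0 (c0 v) v
      (fun u => F.rho (r n) u / Real.sqrt (F.o2 (r n))) -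
      E2 n * (F.rho (r n) v / Real.sqrt (F.o2 (r n)))) atTop (nhds 0) := by
    have hb : Tendsto (fun n => (Real.sqrt (dsq (z n).c (nR (z n)) c0 (r n)) /
        Real.sqrt (F.o2 (r n))) / τ) atTop (nhds 0) := by
      simpa using h.d_lim.div_const τ
    refine squeeze_zero_norm' ?_ hb
    refine hev.mono (fun n hn => ?_)
    have hR := x2_R_pos h n
    have hs := x2_stat h n v hn
    have hl : Lf G c0 (c0 v) v (fun u => F.rho (r n) u / Real.sqrt (F.o2 (r n))) =
        Lf G c0 (c0 v) v (F.rho (r n)) / Real.sqrt (F.o2 (r n)) := by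
      unfold Lf
      rw [Finset.sum_div]
      refine Finset.sum_congr rfl (fun u _ => ?_)
      split
      · ring
      · simp
    have heq : Lf G c0 (c0 v) v (fun u => F.rho (r n) u / Real.sqrt (F.o2 (r n))) -
      E2 n * (F.rho (r n) v / Real.sqrt (F.o2 (r n))) =
      (r n v - eps ((z n).c v) (c0 v) * ((z n).n v : ℝ)) / τ / Real.sqrt (F.o2 (r n)) := by
      rw [hl, ← hs]
      ring
    rw [heq, Real.norm_eq_abs, abs_div, abs_div, abs_of_pos hR, abs_of_pos hτ, div_right_comm]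
    have hle := x2_abs_le (z n).c c0 (nR (z n)) (r n) v
    have hle' : |r n v - eps ((z n).c v) (c0 v) * ((z n).n v : ℝ)| ≤
      Real.sqrt (dsq (z n).c (nR (z n)) c0 (r n)) := hle
    gcongr
  have h5 := tendsto_nhds_unique h3 h4
  linarith

theorem lim_neutral (h : Lim F τ f Es c0 e E2 z r) (v : V) (hv : v ∉ F.I) (he : 0 < e v)
    (j : Fin k) : Lf G F.σ (c0 v) v (F.e j) = 0 := by
  obtain ⟨n, hn⟩ := (x2_ev_pos h v hv he).exists
  exact (h.facts n).neutral v hv hn j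

end UC
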