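import Pool.Agent.helper25.UC.Z7C

/-!
# Z8 : the critical rate is positive

**exit_lemma.**  `R = {z : 1 ≤ tot z, f z < ε}`.  `P(z,w) = n_w/tot z`.  Define
`p 0 z = 1`, `p (m+1) z = if z ∈ R then ∑_w (n_w/tot z) p m (step z w) else 0`.
(a) for good `z` and all `M`: `c ∑_{m=1}^{M} p m z ≤ H z`;
(b) for good `z`: `ε (1 - p m z) ≤ f z`.
For `z ∈ R` the series `∑ p m z` has bounded partial sums, but `p m z ≥ 1 - f z/ε > 0`.
-/

set_option linter.unusedSectionVars false

namespace UC
open Finset
variable {V : Type} [Fintype V] [DecidableEq V] {s k : ℕ}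
variable {G : SimpleGraph V} [DecidableRel G.Adj]

open Classical in
/-- probability to stay in `R` at the times `0, …, m - 1` -/
noncomputable def z8p (G : SimpleGraph V) [DecidableRel G.Adj] (R : St V s → Prop) :
    ℕ → St V s → ℝ
  | 0, _ => 1
  | m + 1, z => if R z then ∑ w, ((z.n w : ℝ) / tot z) * z8p G R m (step G z w) else 0

theorem z8p_zero (R : St V s → Prop) (z : St V s) : z8p G R 0 z = 1 := rfl

theorem z8p_pos (R : St V s → Prop) (m : ℕ) (z : St V s) (h : R z) :
    z8p G R (m + 1) z = ∑ w, ((z.n w : ℝ) / tot z) * z8p G R m (step G z w) := by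
  rw [z8p, if_pos h]

theorem z8p_neg (R : St V s → Prop) (m : ℕ) (z : St V s) (h : ¬ R z) :
    z8p G R (m + 1) z = 0 := by
  rw [z8p, if_neg h]

theorem z8_sum_P (z : St V s) (h : 1 ≤ tot z) : ∑ w, ((z.n w : ℝ) / tot z) = 1 := by
  rw [← Finset.sum_div]
  have ht : tot z ≠ 0 := by linarith
  exact div_self ht

theorem z8_sum_F (F : St V s → ℝ) (z : St V s) (h : 1 ≤ tot z) :
    ∑ w, ((z.n w : ℝ) / tot z) * F (step G z w) = F z + gen G F z / tot z := by
  have ht : tot z ≠ 0 := by linarith
  have h1 : gen G F z = (∑ w, (z.n w : ℝ) * F (step G z w)) - tot z * F z := by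
    unfold gen tot
    simp only [mul_sub, Finset.sum_sub_distrib, Finset.sum_mul]
  have h2 : ∑ w, ((z.n w : ℝ) / tot z) * F (step G z w) =
      (∑ w, (z.n w : ℝ) * F (step G z w)) / tot z := by
    rw [Finset.sum_div]
    exact Finset.sum_congr rfl fun w _ => by ring
  rw [h2, h1]
  field_simp
  ring

theorem exit_lemma {f H : St V s → ℝ} (hf0 : ∀ z, 0 ≤ f z) (hh : ∀ z, gen G f z = 0) (ε c1 : ℝ)
    (hε : 0 < ε) (hc : 0 < c1)
    (h1 : ∀ z, 1 ≤ tot z → f z < ε → gen G H z ≤ -(c1 * tot z))
    (h2 : ∀ z, 1 ≤ tot z → f z < ε → 0 ≤ H z ∧ ∀ w, 1 ≤ z.n w → 0 ≤ H (step G z w)) :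
    ∀ z, 1 ≤ tot z → ε ≤ f z := by
  intro z0 ht0
  by_contra hlt
  push Not at hlt
  set R : St V s → Prop := fun z => 1 ≤ tot z ∧ f z < ε with hR
  -- the summation over the next step
  have key : ∀ (z : St V s), R z → ∀ A B : St V s → ℝ,
      (∀ y, 1 ≤ tot y → 0 ≤ H y → A y ≤ B y) →
      ∑ w, ((z.n w : ℝ) / tot z) * A (step G z w) ≤ ∑ w, ((z.n w : ℝ) / tot z) * B (step G z w) := by
    intro z hz A B hAB
    refine Finset.sum_le_sum fun w _ => ?_
    rcases Nat.eq_zero_or_pos (z.n w) with h0 | h0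
    · rw [h0]
      simp
    · refine mul_le_mul_of_nonneg_left ?_
        (div_nonneg (Nat.cast_nonneg _) (by linarith [hz.1]))
      exact hAB _ (one_le_step_tot z w h0) ((h2 z hz.1 hz.2).2 w h0)
  -- (a)
  have ha : ∀ (M : ℕ) (z : St V s), 1 ≤ tot z → 0 ≤ H z →
      c1 * ∑ m ∈ Finset.range M, z8p G R (m + 1) z ≤ H z := by
    intro M
    induction M with
    | zero => intro z _ hz; simpa using hz
    | succ M ih =>
      intro z hz hHz
      by_cases hRz : R z
      · have e1 : ∑ m ∈ Finset.range (M + 1), z8p G R (m + 1) z =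
            ∑ w, ((z.n w : ℝ) / tot z) *
              (∑ m ∈ Finset.range M, z8p G R (m + 1) (step G z w) + 1) := by
          have : ∀ m ∈ Finset.range (M + 1), z8p G R (m + 1) z =
              ∑ w, ((z.n w : ℝ) / tot z) * z8p G R m (step G z w) :=
            fun m _ => z8p_pos R m z hRz
          rw [Finset.sum_congr rfl this, Finset.sum_comm]
          refine Finset.sum_congr rfl fun w _ => ?_
          rw [← Finset.mul_sum, Finset.sum_range_succ', z8p_zero]
        rw [e1, Finset.mul_sum]
        have e2 : ∀ w ∈ (Finset.univ : Finset V), c1 * (((z.n w : ℝ) / tot z) *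
              (∑ m ∈ Finset.range M, z8p G R (m + 1) (step G z w) + 1)) =
            ((z.n w : ℝ) / tot z) *
              (c1 * ∑ m ∈ Finset.range M, z8p G R (m + 1) (step G z w) + c1) := by
          intro w _
          ring
        rw [Finset.sum_congr rfl e2]
        have e3 := key z hRz (fun y => c1 * ∑ m ∈ Finset.range M, z8p G R (m + 1) y + c1)
          (fun y => H y + c1) (fun y hy hHy => by linarith [ih y hy hHy])
        refine e3.trans ?_
        have e4 : ∑ w, ((z.n w : ℝ) / tot z) * (H (step G z w) + c1) =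
            (∑ w, ((z.n w : ℝ) / tot z) * H (step G z w)) + c1 := by
          simp only [mul_add, Finset.sum_add_distrib]
          rw [← Finset.sum_mul, z8_sum_P z hz, one_mul]
        rw [e4, z8_sum_F H z hz]
        have e5 : gen G H z / tot z ≤ -c1 := by
          rw [div_le_iff₀ (by linarith)]
          linarith [h1 z hRz.1 hRz.2]
        linarith
      · have : ∀ m ∈ Finset.range (M + 1), z8p G R (m + 1) z = 0 :=
          fun m _ => z8p_neg R m z hRz
        rw [Finset.sum_eq_zero this, mul_zero]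
        exact hHz
  -- (b)
  have hb : ∀ (m : ℕ) (z : St V s), 1 ≤ tot z → 0 ≤ H z → ε * (1 - z8p G R m z) ≤ f z := by
    intro m
    induction m with
    | zero =>
      intro z _ _
      rw [z8p_zero]
      simpa using hf0 z
    | succ m ih =>
      intro z hz hHz
      by_cases hRz : R z
      · rw [z8p_pos R m z hRz]
        have e1 := key z hRz (fun y => ε * (1 - z8p G R m y)) f ih
        rw [z8_sum_F f z hz, hh z, zero_div, add_zero] at e1
        have e2 : ∑ w, ((z.n w : ℝ) / tot z) * (ε * (1 - z8p G R m (step G z w))) =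
            ε * (1 - ∑ w, ((z.n w : ℝ) / tot z) * z8p G R m (step G z w)) := by
          have e3 : ∀ w ∈ (Finset.univ : Finset V),
              ((z.n w : ℝ) / tot z) * (ε * (1 - z8p G R m (step G z w))) =
              ε * ((z.n w : ℝ) / tot z) - ε * (((z.n w : ℝ) / tot z) * z8p G R m (step G z w)) := by
            intro w _
            ring
          rw [Finset.sum_congr rfl e3, Finset.sum_sub_distrib, ← Finset.mul_sum,
            ← Finset.mul_sum, z8_sum_P z hz]
          ring
        rw [← e2]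
        exact e1
      · rw [z8p_neg R m z hRz]
        have : ¬ f z < ε := fun h => hRz ⟨hz, h⟩
        push Not at this
        linarith
  have hH0 := (h2 z0 ht0 hlt).1
  have hδ : 0 < 1 - f z0 / ε := by
    have : f z0 / ε < 1 := (div_lt_one hε).2 hlt
    linarith
  have hp : ∀ m, 1 - f z0 / ε ≤ z8p G R m z0 := by
    intro m
    have h3 := hb m z0 ht0 hH0
    have h4 : 1 - z8p G R m z0 ≤ f z0 / ε := by
      rw [le_div_iff₀ hε]
      linarith
    linarith
  obtain ⟨M, hM⟩ := exists_nat_gt (H z0 / (c1 * (1 - f z0 / ε)))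
  have h5 := ha M z0 ht0 hH0
  have h6 : (M : ℝ) * (1 - f z0 / ε) ≤ ∑ m ∈ Finset.range M, z8p G R (m + 1) z0 := by
    have := Finset.card_nsmul_le_sum (Finset.range M) (fun m => z8p G R (m + 1) z0)
      (1 - f z0 / ε) (fun m _ => hp (m + 1))
    rwa [Finset.card_range, nsmul_eq_mul] at this
  rw [div_lt_iff₀ (mul_pos hc hδ)] at hM
  have h7 := mul_le_mul_of_nonneg_left h6 hc.le
  nlinarith

end UC
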